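import Mathlib
import Pool.Agent.H39.PolyMain

set_option autoImplicit false

universe u

namespace Pool.Agent.Results.MP_1465e7_co.UniversalExtensionCriterion

open Pool.Agent.H39.Poly

/-- A `k`-orbit polytope `P` has a universal `k`-orbit extension if and only if
(i) an isomorphism between two facets of `P` that conjugates the groups induced on them by
automorphisms of `P` exists only between facets in the same orbit, and
(ii) an automorphism of a facet `F` that normalizes the group induced on `F` by automorphisms of
`P`, and whose square is induced by an automorphism of `P`, is itself induced by an automorphism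
of `P`. -/
theorem result (k n : ℕ) (P : Type u) [PartialOrder P] [BoundedOrder P] (hP : IsKOrbit k n P) :
    HasUniversalExtension k n P ↔
      (∀ F G : P, IsCoatom F → IsCoatom G → ∀ γ : Set.Iic F ≃o Set.Iic G, Conjugates γ →
        ∃ g : P ≃o P, g F = G) ∧
      (∀ F : P, IsCoatom F → ∀ γ : Set.Iic F ≃o Set.Iic F, Conjugates γ →
        Extends (γ.trans γ) → Extends γ) :=
  criterion hP

end Pool.Agent.Results.MP_1465e7_co.UniversalExtensionCriterion
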